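import Mathlib

set_option autoImplicit false

open MeasureTheory FourierTransform SchwartzMap
open scoped ENNReal ContDiff

namespace Pool.Agent.Lib.MP_48d5b6_gt

variable {E : Type*} [NormedAddCommGroup E] [MeasurableSpace E] [BorelSpace E]
  [InnerProductSpace ℝ E] [FiniteDimensional ℝ E]

theorem continuous_fourier {f : E → ℂ} (h1 : Integrable f) : Continuous (𝓕 f) :=
  VectorFourier.fourierIntegral_continuous Real.continuous_fourierChar
    (innerSL ℝ).continuous₂ h1

theorem fourier_L2_eq_fourier {f : E → ℂ} (h1 : Integrable f) (h2 : MemLp f 2) :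
    (𝓕 (h2.toLp f) : Lp ℂ 2 (volume : Measure E)) =ᵐ[volume] 𝓕 f := by
  set g : Lp ℂ 2 (volume : Measure E) := 𝓕 (h2.toLp f) with hg
  have hcont : Continuous (𝓕 f) := continuous_fourier h1
  have hgl : LocallyIntegrable g (volume : Measure E) :=
    (Lp.memLp g).locallyIntegrable (by norm_num)
  have hloc : LocallyIntegrable (fun x => g x - 𝓕 f x) (volume : Measure E) :=
    hgl.sub hcont.locallyIntegrable
  have key : ∀ᵐ x ∂(volume : Measure E), g x - 𝓕 f x = 0 := by
    apply ae_eq_zero_of_integral_contDiff_smul_eq_zero hloc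
    intro φ φ_smooth φ_cpt
    have hφ₁ : HasCompactSupport (Complex.ofRealCLM ∘ φ) := φ_cpt.comp_left rfl
    have hφ₂ : ContDiff ℝ ∞ (Complex.ofRealCLM ∘ φ) := by fun_prop
    set ψ : 𝓢(E, ℂ) := hφ₁.toSchwartzMap hφ₂ with hψ
    have e1 : ∫ x, ψ x • g x = ∫ x, (𝓕 ψ) x • f x := by
      have h := Lp.fourier_toTemperedDistribution_eq (h2.toLp f)
      have h' := congrArg (fun T => T ψ) h
      simp only [TemperedDistribution.fourier_apply, Lp.toTemperedDistribution_apply] at h'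
      rw [← hg] at h'
      rw [← h']
      apply integral_congr_ae
      filter_upwards [h2.coeFn_toLp] with x hx
      rw [hx]
    have e2 : ∫ x, (𝓕 ψ) x • f x = ∫ x, ψ x • (𝓕 f) x := by
      have := VectorFourier.integral_fourierIntegral_smul_eq_flip (e := Real.fourierChar)
        (μ := (volume : Measure E)) (ν := (volume : Measure E)) (L := innerₗ E)
        Real.continuous_fourierChar
        (innerSL ℝ).continuous₂
        (ψ.integrable) h1
      rw [flip_innerₗ] at this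
      exact this
    have hψφ : ∀ x, ψ x = (φ x : ℂ) := fun x => rfl
    have hi1 : Integrable (fun x => φ x • g x) := by
      exact hgl.integrable_smul_left_of_hasCompactSupport φ_smooth.continuous φ_cpt
    have hi2 : Integrable (fun x => φ x • (𝓕 f) x) := by
      exact (hcont.locallyIntegrable).integrable_smul_left_of_hasCompactSupport
        φ_smooth.continuous φ_cpt
    have : ∫ x, φ x • (g x - 𝓕 f x) = (∫ x, φ x • g x) - ∫ x, φ x • 𝓕 f x := by
      rw [← integral_sub hi1 hi2]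
      simp only [smul_sub]
    rw [this]
    have e3 : ∫ x, φ x • g x = ∫ x, ψ x • g x := rfl
    have e4 : ∫ x, φ x • 𝓕 f x = ∫ x, ψ x • 𝓕 f x := rfl
    rw [e3, e4, e1, e2, sub_self]
  filter_upwards [key] with x hx
  exact sub_eq_zero.mp hx

/-- Plancherel for functions in `L1 ∩ L2`. -/
theorem plancherel {f : E → ℂ} (h1 : Integrable f) (h2 : MemLp f 2) :
    ∫ ξ, ‖𝓕 f ξ‖ ^ 2 = ∫ x, ‖f x‖ ^ 2 := by
  have h := Lp.norm_fourier_eq (h2.toLp f)
  have ha := fourier_L2_eq_fourier h1 h2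
  have hL : ∀ u : Lp ℂ 2 (volume : Measure E), ∫ x, ‖u x‖ ^ 2 = ‖u‖ ^ 2 := by
    intro u
    have := L2.inner_def (𝕜 := ℂ) u u
    rw [inner_self_eq_norm_sq_to_K] at this
    have h3 : ∫ a, (inner ℂ (u a) (u a) : ℂ) = ∫ a, ((‖u a‖ ^ 2 : ℝ) : ℂ) := by
      congr with a
      rw [inner_self_eq_norm_sq_to_K]
      simp
    rw [h3] at this
    have h4 : ∫ a, ((‖u a‖ ^ 2 : ℝ) : ℂ) = ((∫ a, ‖u a‖ ^ 2 : ℝ) : ℂ) :=
      integral_ofReal
    rw [h4] at this
    apply Complex.ofReal_injective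
    rw [← this]
    simp
  calc ∫ ξ, ‖𝓕 f ξ‖ ^ 2 = ∫ ξ, ‖(𝓕 (h2.toLp f) : Lp ℂ 2 (volume : Measure E)) ξ‖ ^ 2 := by
        apply integral_congr_ae
        filter_upwards [ha] with x hx
        rw [hx]
    _ = ‖(𝓕 (h2.toLp f) : Lp ℂ 2 (volume : Measure E))‖ ^ 2 := hL _
    _ = ‖h2.toLp f‖ ^ 2 := by rw [h]
    _ = ∫ x, ‖(h2.toLp f) x‖ ^ 2 := (hL _).symm
    _ = ∫ x, ‖f x‖ ^ 2 := by
        apply integral_congr_ae
        filter_upwards [h2.coeFn_toLp] with x hx
        rw [hx]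

theorem integrable_fourier_sq {f : E → ℂ} (h1 : Integrable f) (h2 : MemLp f 2) :
    Integrable (fun ξ => ‖𝓕 f ξ‖ ^ 2) := by
  have ha := fourier_L2_eq_fourier h1 h2
  have hm : MemLp (𝓕 f) 2 (volume : Measure E) := (memLp_congr_ae ha).1 (Lp.memLp _)
  exact hm.integrable_norm_pow (by norm_num)

end Pool.Agent.Lib.MP_48d5b6_gt
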