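import Mathlib
import Pool.Agent.Lib.MP_48d5b6_gt.Plancherel

set_option autoImplicit false

open MeasureTheory FourierTransform Filter Topology ProbabilityTheory
open scoped ENNReal RealInnerProductSpace

namespace Pool.Agent.Lib.MP_48d5b6_gt

variable {E : Type*} [NormedAddCommGroup E] [MeasurableSpace E] [BorelSpace E]
  [InnerProductSpace ℝ E] [FiniteDimensional ℝ E]

/-- The law of the difference of two points of `C` has density the covariogram. -/
theorem lintegral_diff {C : Set E} (hC : MeasurableSet C) {g : E → ℝ≥0∞} (hg : Measurable g) :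
    ∫⁻ y in C, ∫⁻ x in C, g (x - y) =
      ∫⁻ z, g z * volume (C ∩ ((fun y => y + z) '' C)) := by
  have h1 : ∀ y : E, ∫⁻ x in C, g (x - y) = ∫⁻ z, C.indicator (fun _ => (1 : ℝ≥0∞)) (z + y) * g z := by
    intro y
    rw [← lintegral_indicator hC]
    rw [← lintegral_add_right_eq_self _ y]
    congr with z
    by_cases hz : z + y ∈ C <;> simp [hz]
  simp_rw [h1]
  rw [← lintegral_indicator hC]
  have h2 : ∀ y : E, C.indicator (fun y => ∫⁻ z, C.indicator (fun _ => (1 : ℝ≥0∞)) (z + y) * g z) y
      = ∫⁻ z, C.indicator (fun _ => (1 : ℝ≥0∞)) y * (C.indicator (fun _ => (1 : ℝ≥0∞)) (z + y) * g z) := by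
    intro y
    by_cases hy : y ∈ C <;> simp [hy]
  simp_rw [h2]
  have hind : Measurable (C.indicator (fun _ => (1 : ℝ≥0∞))) := measurable_const.indicator hC
  rw [lintegral_lintegral_swap]
  · congr with z
    have : ∀ y : E, C.indicator (fun _ => (1 : ℝ≥0∞)) y * (C.indicator (fun _ => (1 : ℝ≥0∞)) (z + y) * g z)
        = g z * (C ∩ (fun y => z + y) ⁻¹' C).indicator (fun _ => (1 : ℝ≥0∞)) y := by
      intro y
      by_cases hy : y ∈ C <;> by_cases hy' : z + y ∈ C <;> simp [hy, hy']
    simp_rw [this]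
    have hm : MeasurableSet (C ∩ (fun y => z + y) ⁻¹' C) :=
      hC.inter ((measurable_const_add z) hC)
    rw [lintegral_const_mul _ (measurable_const.indicator hm)]
    congr 1
    rw [lintegral_indicator hm]
    simp only [lintegral_const, MeasurableSet.univ, Measure.restrict_apply, Set.univ_inter, one_mul]
    have : (C ∩ (fun y => y + z) '' C) = (fun y => y + z) '' (C ∩ (fun y => z + y) ⁻¹' C) := by
      ext x
      constructor
      · rintro ⟨hx, y, hy, rfl⟩
        refine ⟨y, ⟨hy, ?_⟩, rfl⟩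
        simpa [add_comm] using hx
      · rintro ⟨y, ⟨hy, hy'⟩, rfl⟩
        refine ⟨?_, y, hy, rfl⟩
        simpa [add_comm] using hy'
    rw [this]
    have := measure_preimage_add_right (volume : Measure E) z ((fun y => y + z) '' (C ∩ (fun y => z + y) ⁻¹' C))
    rw [← this]
    congr 1
    ext x
    simp
  · apply Measurable.aemeasurable
    apply Measurable.mul
    · exact hind.comp measurable_fst
    · exact (hind.comp (measurable_snd.add measurable_fst)).mul (hg.comp measurable_snd)

theorem diff_law_eq {C D : Set E} (hC : MeasurableSet C) (hD : MeasurableSet D)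
    (hcov : ∀ z : E, volume (D ∩ ((fun y => y + z) '' D)) = volume (C ∩ ((fun y => y + z) '' C)))
    [SFinite ((volume : Measure E).restrict C)] [SFinite ((volume : Measure E).restrict D)] :
    (((volume : Measure E).restrict C).prod (volume.restrict C)).map (fun p : E × E => p.2 - p.1)
    = (((volume : Measure E).restrict D).prod (volume.restrict D)).map (fun p : E × E => p.2 - p.1) := by
  ext S hS
  have hm : Measurable (fun p : E × E => p.2 - p.1) := measurable_snd.sub measurable_fst
  rw [Measure.map_apply hm hS, Measure.map_apply hm hS]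
  rw [Measure.prod_apply (hm hS), Measure.prod_apply (hm hS)]
  have h3 : ∀ {K : Set E}, MeasurableSet K → ∀ y : E, (volume.restrict K) (Prod.mk y ⁻¹' ((fun p : E × E => p.2 - p.1) ⁻¹' S)) =
      ∫⁻ x in K, (S.indicator (fun _ => (1 : ℝ≥0∞))) (x - y) := by
    intro K hK y
    have h5 : MeasurableSet (Prod.mk y ⁻¹' ((fun p : E × E => p.2 - p.1) ⁻¹' S)) :=
      measurable_prodMk_left (hm hS)
    rw [← lintegral_indicator_one h5]
    rfl
  simp_rw [h3 hC, h3 hD]
  have hg : Measurable (S.indicator (fun _ => (1 : ℝ≥0∞))) := measurable_const.indicator hS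
  rw [lintegral_diff hC hg, lintegral_diff hD hg]
  simp_rw [hcov]

/-- Tilted indicator. -/
noncomputable def tilt (K : Set E) (σ : E) : E → ℂ :=
  K.indicator (fun x => ((Real.exp ⟪σ, x⟫ : ℝ) : ℂ))

theorem exp_integrableOn {K : Set E} (hK : IsCompact K) (σ : E) :
    IntegrableOn (fun x => Real.exp ⟪σ, x⟫) K volume := by
  apply ContinuousOn.integrableOn_compact hK
  fun_prop

theorem tilt_memLp {K : Set E} (hK : IsCompact K) (σ : E) (p : ℝ≥0∞) :
    MemLp (tilt K σ) p := by
  unfold tilt
  rw [memLp_indicator_iff_restrict hK.measurableSet]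
  have : IsFiniteMeasure ((volume : Measure E).restrict K) :=
    isFiniteMeasure_restrict.2 hK.measure_lt_top.ne
  obtain ⟨M, hM⟩ := hK.exists_bound_of_continuousOn
    (f := fun x => ((Real.exp ⟪σ, x⟫ : ℝ) : ℂ)) (by fun_prop)
  apply MemLp.of_bound (C := M)
  · apply Continuous.aestronglyMeasurable
    fun_prop
  · exact (ae_restrict_iff' hK.measurableSet).2 (Eventually.of_forall hM)

theorem tilt_integrable {K : Set E} (hK : IsCompact K) (σ : E) :
    Integrable (tilt K σ) := memLp_one_iff_integrable.1 (tilt_memLp hK σ 1)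

theorem fourier_tilt {K : Set E} (hK : IsCompact K) (σ ξ : E) :
    𝓕 (tilt K σ) ξ = ∫ x in K, Complex.exp ((⟪σ, x⟫ : ℂ) - 2 * Real.pi * Complex.I * (⟪ξ, x⟫ : ℝ)) := by
  rw [Real.fourier_eq', ← integral_indicator hK.measurableSet]
  congr with x
  unfold tilt
  by_cases hx : x ∈ K
  · simp only [hx, Set.indicator_of_mem, smul_eq_mul, Complex.ofReal_exp]
    rw [← Complex.exp_add]
    congr 1
    rw [real_inner_comm]
    push_cast
    ring
  · simp [hx]

theorem plancherel_tilt {K : Set E} (hK : IsCompact K) (σ : E) :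
    ∫ ξ, ‖𝓕 (tilt K σ) ξ‖ ^ 2 = ∫ x in K, Real.exp ⟪(2 : ℝ) • σ, x⟫ := by
  rw [plancherel (tilt_integrable hK σ) (tilt_memLp hK σ 2), ← integral_indicator hK.measurableSet]
  congr with x
  unfold tilt
  by_cases hx : x ∈ K
  · simp only [hx, Set.indicator_of_mem, inner_smul_left]
    rw [Complex.norm_real, Real.norm_of_nonneg (Real.exp_pos _).le, sq, ← Real.exp_add]
    congr 1
    simp
    ring
  · simp [hx]

/-- product of the two exponential integrals as an integral over the difference law. -/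
theorem prod_eq_diff {K : Set E} (hK : IsCompact K) (σ ξ : E) :
    𝓕 (tilt K (-σ)) (-ξ) * 𝓕 (tilt K σ) ξ =
      ∫ z, Complex.exp ((⟪σ, z⟫ : ℂ) - 2 * Real.pi * Complex.I * (⟪ξ, z⟫ : ℝ))
        ∂((((volume : Measure E).restrict K).prod (volume.restrict K)).map
          (fun p : E × E => p.2 - p.1)) := by
  have : IsFiniteMeasure ((volume : Measure E).restrict K) :=
    isFiniteMeasure_restrict.2 hK.measure_lt_top.ne
  rw [fourier_tilt hK, fourier_tilt hK, ← integral_prod_mul, integral_map]
  · congr with p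
    rw [← Complex.exp_add]
    congr 1
    simp only [inner_neg_left, inner_sub_right]
    push_cast
    ring
  · exact (measurable_snd.sub measurable_fst).aemeasurable
  · apply Continuous.aestronglyMeasurable
    fun_prop

theorem product_identity {C D : Set E} (hC : IsCompact C) (hD : IsCompact D)
    (hcov : ∀ z : E, volume (D ∩ ((fun y => y + z) '' D)) = volume (C ∩ ((fun y => y + z) '' C)))
    (σ ξ : E) :
    𝓕 (tilt C (-σ)) (-ξ) * 𝓕 (tilt C σ) ξ = 𝓕 (tilt D (-σ)) (-ξ) * 𝓕 (tilt D σ) ξ := by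
  have : IsFiniteMeasure ((volume : Measure E).restrict C) :=
    isFiniteMeasure_restrict.2 hC.measure_lt_top.ne
  have : IsFiniteMeasure ((volume : Measure E).restrict D) :=
    isFiniteMeasure_restrict.2 hD.measure_lt_top.ne
  rw [prod_eq_diff hC, prod_eq_diff hD, diff_law_eq hC.measurableSet hD.measurableSet hcov]

theorem fourier_tilt_neg {K : Set E} (hK : IsCompact K) (hs : ∀ x, x ∈ K ↔ -x ∈ K) (σ ξ : E) :
    𝓕 (tilt K (-σ)) (-ξ) = 𝓕 (tilt K σ) ξ := by
  rw [fourier_tilt hK, fourier_tilt hK, ← integral_indicator hK.measurableSet,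
    ← integral_indicator hK.measurableSet, ← integral_neg_eq_self]
  congr with x
  by_cases hx : x ∈ K
  · have hx' : -x ∈ K := (hs x).1 hx
    simp [hx, hx', sub_eq_add_neg]
  · have hx' : -x ∉ K := fun h => hx ((hs x).2 h)
    simp [hx, hx']

/-- The value at frequency zero. -/
theorem fourier_tilt_zero {K : Set E} (hK : IsCompact K) (σ : E) :
    𝓕 (tilt K σ) 0 = ((∫ x in K, Real.exp ⟪σ, x⟫ : ℝ) : ℂ) := by
  rw [fourier_tilt hK]
  have : ((∫ x in K, Real.exp ⟪σ, x⟫ : ℝ) : ℂ) = ∫ x in K, ((Real.exp ⟪σ, x⟫ : ℝ) : ℂ) :=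
    integral_ofReal.symm
  rw [this]
  congr with x
  simp

/-- Laplace transform of the indicator of `K`. -/
noncomputable def lap (K : Set E) (σ : E) : ℝ := ∫ x in K, Real.exp ⟪σ, x⟫

theorem lap_nonneg (K : Set E) (σ : E) : 0 ≤ lap K σ :=
  integral_nonneg (fun _ => (Real.exp_pos _).le)

/-- The key step : equality in Cauchy-Schwarz. -/
theorem key {C D : Set E} (hC : IsCompact C) (hD : IsCompact D)
    (hs : ∀ x, x ∈ C ↔ -x ∈ C)
    (hcov : ∀ z : E, volume (D ∩ ((fun y => y + z) '' D)) = volume (C ∩ ((fun y => y + z) '' C)))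
    (σ : E) :
    lap D ((2 : ℝ) • (-σ)) * lap D σ ^ 2 = lap D ((2 : ℝ) • σ) * lap D (-σ) ^ 2 := by
  have hid := product_identity hC hD hcov
  -- real version
  have hreal : ∀ τ : E, lap C τ ^ 2 = lap D (-τ) * lap D τ := by
    intro τ
    have h := hid τ 0
    rw [neg_zero, fourier_tilt_zero hC, fourier_tilt_zero hC, fourier_tilt_zero hD,
      fourier_tilt_zero hD] at h
    have h2 := fourier_tilt_neg hC hs τ 0
    rw [neg_zero, fourier_tilt_zero hC, fourier_tilt_zero hC] at h2
    rw [h2] at h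
    have h3 : lap C τ * lap C τ = lap D (-τ) * lap D τ := by
      unfold lap
      exact_mod_cast h
    rw [sq]
    exact h3
  have hcx : ∀ ξ : E, ‖𝓕 (tilt C σ) ξ‖ ^ 2 = ‖𝓕 (tilt D (-σ)) (-ξ)‖ * ‖𝓕 (tilt D σ) ξ‖ := by
    intro ξ
    have h := hid σ ξ
    rw [fourier_tilt_neg hC hs] at h
    rw [← norm_mul, ← h, norm_mul, sq]
  set A : ℝ := lap D ((2 : ℝ) • σ) with hA
  set B : ℝ := lap D ((2 : ℝ) • (-σ)) with hB
  set P : ℝ := lap C ((2 : ℝ) • σ) with hP
  have hPAB : P ^ 2 = B * A := by
    rw [hP, hreal, hA, hB, smul_neg]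
  have hAnn : 0 ≤ A := lap_nonneg _ _
  have hBnn : 0 ≤ B := lap_nonneg _ _
  have hPnn : 0 ≤ P := lap_nonneg _ _
  set α := Real.sqrt B with hα
  set β := Real.sqrt A with hβ
  have hαβ : α * β = P := by
    rw [hα, hβ, ← Real.sqrt_mul hBnn, ← hPAB, Real.sqrt_sq hPnn]
  have hα2 : α ^ 2 = B := Real.sq_sqrt hBnn
  have hβ2 : β ^ 2 = A := Real.sq_sqrt hAnn
  set a : E → ℝ := fun ξ => ‖𝓕 (tilt D σ) ξ‖ with ha
  set b : E → ℝ := fun ξ => ‖𝓕 (tilt D (-σ)) (-ξ)‖ with hb
  have hacont : Continuous a := (continuous_fourier (tilt_integrable hD σ)).norm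
  have hbcont : Continuous b :=
    ((continuous_fourier (tilt_integrable hD (-σ))).comp continuous_neg).norm
  have haint : Integrable (fun ξ => a ξ ^ 2) :=
    integrable_fourier_sq (tilt_integrable hD σ) (tilt_memLp hD σ 2)
  have hbint : Integrable (fun ξ => b ξ ^ 2) :=
    (integrable_fourier_sq (tilt_integrable hD (-σ)) (tilt_memLp hD (-σ) 2)).comp_neg
  have hcint : Integrable (fun ξ => b ξ * a ξ) := by
    have := integrable_fourier_sq (tilt_integrable hC σ) (tilt_memLp hC σ 2)
    simp_rw [hcx] at this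
    exact this
  have iA : ∫ ξ, a ξ ^ 2 = A := plancherel_tilt hD σ
  have iB : ∫ ξ, b ξ ^ 2 = B := by
    have := plancherel_tilt hD (-σ)
    rw [← integral_neg_eq_self] at this
    exact this
  have iP : ∫ ξ, b ξ * a ξ = P := by
    have := plancherel_tilt hC σ
    simp_rw [hcx] at this
    exact this
  have izero : ∫ ξ, (α * a ξ - β * b ξ) ^ 2 = 0 := by
    have e : ∀ ξ, (α * a ξ - β * b ξ) ^ 2 = (α ^ 2 * a ξ ^ 2 + β ^ 2 * b ξ ^ 2)
        - (2 * (α * β)) * (b ξ * a ξ) := by intro ξ; ring
    simp_rw [e]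
    rw [integral_sub, integral_add, integral_const_mul, integral_const_mul, integral_const_mul,
      iA, iB, iP, hα2, hβ2, hαβ]
    · have := hPAB
      linarith [this, sq P]
    · exact haint.const_mul _
    · exact hbint.const_mul _
    · exact (haint.const_mul _).add (hbint.const_mul _)
    · exact hcint.const_mul _
  have hint : Integrable (fun ξ => (α * a ξ - β * b ξ) ^ 2) := by
    have e : ∀ ξ, (α * a ξ - β * b ξ) ^ 2 = (α ^ 2 * a ξ ^ 2 + β ^ 2 * b ξ ^ 2)
        - (2 * (α * β)) * (b ξ * a ξ) := by intro ξ; ring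
    simp_rw [e]
    exact ((haint.const_mul _).add (hbint.const_mul _)).sub (hcint.const_mul _)
  have hae := (integral_eq_zero_iff_of_nonneg (fun ξ => sq_nonneg _) hint).1 izero
  have hc : Continuous (fun ξ => (α * a ξ - β * b ξ) ^ 2) := by fun_prop
  have hall := (hc.ae_eq_iff_eq volume continuous_const).1 hae
  have h0 := congrFun hall 0
  have h0' : α * a 0 = β * b 0 := by
    have := pow_eq_zero_iff (two_ne_zero) |>.1 h0
    linarith
  have ha0 : a 0 = lap D σ := by
    simp only [ha]
    rw [fourier_tilt_zero hD, Complex.norm_real]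
    exact Real.norm_of_nonneg (lap_nonneg D σ)
  have hb0 : b 0 = lap D (-σ) := by
    simp only [hb, neg_zero]
    rw [fourier_tilt_zero hD, Complex.norm_real]
    exact Real.norm_of_nonneg (lap_nonneg D (-σ))
  rw [ha0, hb0] at h0'
  calc B * lap D σ ^ 2 = (α * lap D σ) ^ 2 := by rw [← hα2]; ring
    _ = (β * lap D (-σ)) ^ 2 := by rw [h0']
    _ = A * lap D (-σ) ^ 2 := by rw [← hβ2]; ring

theorem lap_sq {C D : Set E} (hC : IsCompact C) (hD : IsCompact D)
    (hs : ∀ x, x ∈ C ↔ -x ∈ C)
    (hcov : ∀ z : E, volume (D ∩ ((fun y => y + z) '' D)) = volume (C ∩ ((fun y => y + z) '' C)))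
    (τ : E) : lap C τ ^ 2 = lap D (-τ) * lap D τ := by
  have h := product_identity hC hD hcov τ 0
  rw [neg_zero, fourier_tilt_zero hC, fourier_tilt_zero hC, fourier_tilt_zero hD,
    fourier_tilt_zero hD] at h
  have h2 := fourier_tilt_neg hC hs τ 0
  rw [neg_zero, fourier_tilt_zero hC, fourier_tilt_zero hC] at h2
  rw [h2] at h
  have h3 : lap C τ * lap C τ = lap D (-τ) * lap D τ := by
    unfold lap
    exact_mod_cast h
  rw [sq]
  exact h3

theorem lap_eq_mgf (K : Set E) (v : E) (t : ℝ) :
    lap K (t • v) = mgf (fun x => ⟪v, x⟫) (volume.restrict K) t := by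
  unfold lap mgf
  congr with x
  rw [inner_smul_left]
  simp

theorem integrableExpSet_univ {K : Set E} (hK : IsCompact K) (v : E) :
    integrableExpSet (fun x => ⟪v, x⟫) (volume.restrict K) = Set.univ := by
  ext t
  simp only [integrableExpSet, Set.mem_univ, iff_true]
  change IntegrableOn (fun x => Real.exp (t * ⟪v, x⟫)) K volume
  apply ContinuousOn.integrableOn_compact hK
  fun_prop

theorem tendsto_doubling {l : ℝ → ℝ} (h2 : ∀ t, l (2 * t) = 2 * l t) (hd : HasDerivAt l 0 0) (t : ℝ) :
    l t = 0 := by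
  have h0 : l 0 = 0 := by
    have := h2 0
    rw [mul_zero] at this
    linarith
  by_cases ht : t = 0
  · rw [ht, h0]
  have hk : ∀ k : ℕ, l (t / 2 ^ k) = l t / 2 ^ k := by
    intro k
    induction k with
    | zero => simp
    | succ k ih =>
      have := h2 (t / 2 ^ (k + 1))
      have e : 2 * (t / 2 ^ (k + 1)) = t / 2 ^ k := by
        rw [pow_succ]; field_simp
      rw [e, ih] at this
      have e2 : l t / 2 ^ (k + 1) = (l t / 2 ^ k) / 2 := by
        rw [pow_succ]; field_simp
      rw [e2, this]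
      ring
  have hslope := hasDerivAt_iff_tendsto_slope_zero.1 hd
  have hseq : Tendsto (fun k : ℕ => t / 2 ^ k) atTop (𝓝[≠] 0) := by
    rw [tendsto_nhdsWithin_iff]
    constructor
    · have : Tendsto (fun k : ℕ => t * (1 / 2 : ℝ) ^ k) atTop (𝓝 (t * 0)) :=
        (tendsto_pow_atTop_nhds_zero_of_lt_one (by norm_num) (by norm_num)).const_mul t
      rw [mul_zero] at this
      refine this.congr (fun k => ?_)
      rw [one_div, inv_pow, div_eq_mul_inv]
    · exact Eventually.of_forall (fun k => div_ne_zero ht (by positivity))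
  have hlim := hslope.comp hseq
  have hconst : ∀ k : ℕ, ((fun h => h⁻¹ • (l (0 + h) - l 0)) ∘ fun k : ℕ => t / 2 ^ k) k = l t / t := by
    intro k
    simp only [Function.comp_apply, zero_add, h0, sub_zero, hk, smul_eq_mul]
    field_simp
  have hlim2 : Tendsto (fun _ : ℕ => l t / t) atTop (𝓝 0) := hlim.congr hconst
  have := tendsto_nhds_unique hlim2 tendsto_const_nhds
  have h3 : l t / t = 0 := this.symm
  rcases div_eq_zero_iff.1 h3 with h | h
  · exact h
  · exact absurd h ht

theorem lap_even {C D : Set E} (hC : IsCompact C) (hD : IsCompact D)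
    (hs : ∀ x, x ∈ C ↔ -x ∈ C)
    (hcov : ∀ z : E, volume (D ∩ ((fun y => y + z) '' D)) = volume (C ∩ ((fun y => y + z) '' C)))
    (hD0 : volume D ≠ 0) (hcent : ∀ v : E, ∫ x in D, ⟪v, x⟫ = 0) (v : E) :
    lap D v = lap D (-v) := by
  have hμ : (volume : Measure E).restrict D ≠ 0 := by
    rw [Ne, Measure.restrict_eq_zero]
    exact hD0
  set X : E → ℝ := fun x => ⟪v, x⟫ with hX
  set μ : Measure E := volume.restrict D with hμdef
  set M : ℝ → ℝ := mgf X μ with hM
  have hset : integrableExpSet X μ = Set.univ := integrableExpSet_univ hD v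
  have hpos : ∀ t, 0 < M t := by
    intro t
    have : t ∈ integrableExpSet X μ := by rw [hset]; trivial
    exact mgf_pos' hμ this
  have hder : HasDerivAt M 0 0 := by
    have h0 : (0 : ℝ) ∈ interior (integrableExpSet X μ) := by
      rw [hset, interior_univ]; trivial
    have := hasDerivAt_mgf h0
    have e : (∫ x, X x * Real.exp (0 * X x) ∂μ) = 0 := by
      simp only [zero_mul, Real.exp_zero, mul_one]
      exact hcent v
    rw [e] at this
    exact this
  set l : ℝ → ℝ := fun t => Real.log (M t) - Real.log (M (-t)) with hl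
  have hdl : HasDerivAt l 0 0 := by
    have h1 : HasDerivAt (fun t => Real.log (M t)) (0 / M 0) 0 := hder.log (hpos 0).ne'
    have h2 : HasDerivAt (fun t => M (-t)) (0 * (-1)) 0 := by
      have h3 : HasDerivAt M 0 (-(0 : ℝ)) := by rw [neg_zero]; exact hder
      exact h3.comp 0 (hasDerivAt_neg 0)
    have h4 : HasDerivAt (fun t => Real.log (M (-t))) ((0 * (-1)) / M (-0)) 0 :=
      h2.log (hpos _).ne'
    have h5 : HasDerivAt l (0 / M 0 - (0 * (-1)) / M (-0)) 0 := h1.sub h4
    have h6 : (0 / M 0 - (0 * (-1)) / M (-0)) = 0 := by simp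
    rw [h6] at h5
    exact h5
  have h2l : ∀ t, l (2 * t) = 2 * l t := by
    intro t
    have hk := key hC hD hs hcov (t • v)
    rw [← smul_neg] at hk
    simp only [← neg_smul, smul_smul, smul_neg] at hk
    simp only [lap_eq_mgf] at hk
    have hk' : M (-(2 * t)) * M t ^ 2 = M (2 * t) * M (-t) ^ 2 := by
      simpa [hM, hX, hμdef] using hk
    have hlog := congrArg Real.log hk'
    rw [Real.log_mul (hpos _).ne' (pow_pos (hpos _) 2).ne',
      Real.log_mul (hpos _).ne' (pow_pos (hpos _) 2).ne', Real.log_pow, Real.log_pow] at hlog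
    simp only [hl]
    push_cast at hlog
    linarith
  have := tendsto_doubling h2l hdl 1
  simp only [hl] at this
  have e1 : Real.log (M 1) = Real.log (M (-1)) := by linarith
  have e2 : M 1 = M (-1) := Real.log_injOn_pos (hpos 1) (hpos (-1)) e1
  have e3 : lap D ((1 : ℝ) • v) = lap D ((-1 : ℝ) • v) := by
    rw [lap_eq_mgf, lap_eq_mgf]
    exact e2
  simpa using e3

theorem restrict_eq {C D : Set E} (hC : IsCompact C) (hD : IsCompact D)
    (hs : ∀ x, x ∈ C ↔ -x ∈ C)
    (hcov : ∀ z : E, volume (D ∩ ((fun y => y + z) '' D)) = volume (C ∩ ((fun y => y + z) '' C)))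
    (hcent : ∀ v : E, ∫ x in D, ⟪v, x⟫ = 0) :
    (volume : Measure E).restrict C = volume.restrict D := by
  have hvol : volume D = volume C := by
    have := hcov 0
    simpa using this
  by_cases hD0 : volume D = 0
  · have hC0 : volume C = 0 := hvol ▸ hD0
    rw [Measure.restrict_eq_zero.2 hC0, Measure.restrict_eq_zero.2 hD0]
  have hC0 : volume C ≠ 0 := fun h => hD0 (hvol.trans h)
  have hlap : ∀ τ, lap C τ = lap D τ := by
    intro τ
    have h1 := lap_sq hC hD hs hcov τ
    rw [← lap_even hC hD hs hcov hD0 hcent τ, ← sq] at h1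
    exact (pow_left_inj₀ (lap_nonneg _ _) (lap_nonneg _ _) two_ne_zero).1 h1
  have : IsFiniteMeasure ((volume : Measure E).restrict C) :=
    isFiniteMeasure_restrict.2 hC.measure_lt_top.ne
  have : IsFiniteMeasure ((volume : Measure E).restrict D) :=
    isFiniteMeasure_restrict.2 hD.measure_lt_top.ne
  apply Measure.ext_of_charFun
  ext v
  have hmgf : mgf (fun x => ⟪v, x⟫) ((volume : Measure E).restrict C) =
      mgf (fun x => ⟪v, x⟫) ((volume : Measure E).restrict D) := by
    ext t
    rw [← lap_eq_mgf, ← lap_eq_mgf, hlap]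
  have hz : ((volume : Measure E).restrict C) = 0 ↔ ((volume : Measure E).restrict D) = 0 := by
    rw [Measure.restrict_eq_zero, Measure.restrict_eq_zero]
    exact ⟨fun h => absurd h hC0, fun h => absurd h hD0⟩
  have heq := eqOn_complexMGF_of_mgf' hmgf hz
  have hmem : (Complex.I : ℂ) ∈ {z : ℂ | z.re ∈ interior (integrableExpSet (fun x => ⟪v, x⟫)
      ((volume : Measure E).restrict C))} := by
    rw [integrableExpSet_univ hC v, interior_univ]
    trivial
  have := heq hmem
  simp only [complexMGF] at this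
  rw [charFun_apply, charFun_apply]
  convert this using 2
  · ext x
    rw [real_inner_comm, mul_comm]
  · ext x
    rw [real_inner_comm, mul_comm]

end Pool.Agent.Lib.MP_48d5b6_gt
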