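import Mathlib
import Pool.Agent.Lib.MP_48d5b6_gt.Main

set_option autoImplicit false

open MeasureTheory FourierTransform Filter Topology ProbabilityTheory
open scoped ENNReal RealInnerProductSpace

namespace Pool.Agent.Lib.MP_48d5b6_gt

variable {E : Type*} [NormedAddCommGroup E] [MeasurableSpace E] [BorelSpace E]
  [InnerProductSpace ℝ E] [FiniteDimensional ℝ E]

theorem subset_of_restrict_eq {C D : Set E} (hC : closure (interior C) = C) (hD : IsClosed D)
    (h : (volume : Measure E).restrict C = volume.restrict D) : C ⊆ D := by
  have hopen : IsOpen (interior C \ D) := isOpen_interior.sdiff hD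
  have hnull : volume (interior C \ D) = 0 := by
    have h1 : (volume : Measure E).restrict C (interior C \ D) = volume (interior C \ D) := by
      rw [Measure.restrict_apply hopen.measurableSet]
      congr 1
      ext x
      constructor
      · exact fun hx => hx.1
      · exact fun hx => ⟨hx, interior_subset hx.1⟩
    rw [← h1, h, Measure.restrict_apply hopen.measurableSet]
    have : (interior C \ D) ∩ D = ∅ := by
      ext x
      constructor
      · rintro ⟨⟨_, h1⟩, h2⟩
        exact absurd h2 h1
      · intro hx
        exact absurd hx (by simp)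
    rw [this, measure_empty]
  have hempty : interior C \ D = ∅ := hopen.measure_eq_zero_iff volume |>.1 hnull
  have hsub : interior C ⊆ D := by
    intro x hx
    by_contra hxD
    have : x ∈ interior C \ D := ⟨hx, hxD⟩
    rw [hempty] at this
    exact this
  calc C = closure (interior C) := hC.symm
    _ ⊆ D := closure_minimal hsub hD

theorem mem_image_add {K : Set E} (d x : E) : x ∈ (fun y => y + d) '' K ↔ x - d ∈ K := by
  constructor
  · rintro ⟨y, hy, rfl⟩
    simpa using hy
  · intro h
    exact ⟨x - d, h, by simp⟩

theorem volume_image_add (K : Set E) (d : E) : volume ((fun y => y + d) '' K) = volume K := by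
  rw [← measure_preimage_add_right (volume : Measure E) d]
  congr 1
  ext x
  simp

theorem cov_image_add (K : Set E) (d z : E) :
    volume (((fun y => y + d) '' K) ∩ ((fun y => y + z) '' ((fun y => y + d) '' K))) =
      volume (K ∩ ((fun y => y + z) '' K)) := by
  rw [← volume_image_add (K ∩ ((fun y => y + z) '' K)) d]
  congr 1
  ext x
  simp only [Set.mem_inter_iff, mem_image_add]
  have : x - z - d = x - d - z := by abel
  rw [this]

theorem regular_image_add {K : Set E} (hK : closure (interior K) = K) (d : E) :
    closure (interior ((fun y => y + d) '' K)) = (fun y => y + d) '' K := by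
  have h1 := (Homeomorph.addRight d).image_interior K
  have h2 := (Homeomorph.addRight d).image_closure (interior K)
  have e : ∀ S : Set E, (Homeomorph.addRight d) '' S = (fun y => y + d) '' S := fun S => rfl
  rw [e, e] at h1
  rw [e, e, h1, hK] at h2
  exact h2.symm

theorem main_thm {C D : Set E} (hC : IsCompact C) (hCr : closure (interior C) = C)
    (hsym : ∃ c : E, ∀ x ∈ C, (2 : ℝ) • c - x ∈ C)
    (hD : IsCompact D) (hDr : closure (interior D) = D)
    (hcov : ∀ x : E, volume (D ∩ ((fun y => y + x) '' D)) =
      volume (C ∩ ((fun y => y + x) '' C))) :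
    ∃ t : E, D = (fun y => y + t) '' C := by
  obtain ⟨c, hc⟩ := hsym
  set d : E := (volume.real D)⁻¹ • ∫ x in D, x with hd
  set C' : Set E := (fun y => y + (-c)) '' C with hC'
  set D' : Set E := (fun y => y + (-d)) '' D with hD'
  have hC'c : IsCompact C' := hC.image (by fun_prop)
  have hD'c : IsCompact D' := hD.image (by fun_prop)
  have hs : ∀ x, x ∈ C' ↔ -x ∈ C' := by
    have h1 : ∀ x, x ∈ C' → -x ∈ C' := by
      intro x hx
      rw [hC', mem_image_add] at hx ⊢
      have := hc _ hx
      have e : (2 : ℝ) • c - (x - -c) = -x - -c := by
        rw [two_smul]; abel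
      rw [e] at this
      exact this
    intro x
    refine ⟨h1 x, fun h => ?_⟩
    have := h1 _ h
    simpa using this
  have hcov' : ∀ z : E, volume (D' ∩ ((fun y => y + z) '' D')) =
      volume (C' ∩ ((fun y => y + z) '' C')) := by
    intro z
    rw [hC', hD', cov_image_add, cov_image_add, hcov]
  have hint : IntegrableOn (fun x : E => x) D volume :=
    ContinuousOn.integrableOn_compact hD (by fun_prop)
  have hcent : ∀ v : E, ∫ x in D', ⟪v, x⟫ = 0 := by
    intro v
    have h1 : ∫ x in D', ⟪v, x⟫ = ∫ x in D, ⟪v, x + (-d)⟫ := by
      rw [← integral_indicator hD'c.measurableSet, ← integral_indicator hD.measurableSet,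
        ← integral_add_right_eq_self _ (-d)]
      congr with x
      have : x + (-d) ∈ D' ↔ x ∈ D := by
        rw [hD', mem_image_add]
        simp
      by_cases hx : x ∈ D
      · simp [Set.indicator, this, hx]
      · simp [Set.indicator, this, hx]
    rw [h1]
    have h2 : ∀ x : E, ⟪v, x + (-d)⟫ = ⟪v, x⟫ - ⟪v, d⟫ := by
      intro x
      rw [← sub_eq_add_neg, inner_sub_right]
    simp_rw [h2]
    have : IsFiniteMeasure ((volume : Measure E).restrict D) :=
      isFiniteMeasure_restrict.2 hD.measure_lt_top.ne
    rw [integral_sub (hint.const_inner v) (integrable_const _), integral_inner hint,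
      integral_const, hd, inner_smul_right]
    by_cases h0 : volume.real D = 0
    · have : (volume : Measure E).restrict D = 0 := by
        rw [Measure.restrict_eq_zero]
        rw [Measure.real, ENNReal.toReal_eq_zero_iff] at h0
        rcases h0 with h | h
        · exact h
        · exact absurd h hD.measure_lt_top.ne
      simp [this]
    · simp only [measureReal_restrict_apply_univ, smul_eq_mul]
      field_simp
      ring
  have hrestr := restrict_eq hC'c hD'c hs hcov' hcent
  have hC'r : closure (interior C') = C' := regular_image_add hCr (-c)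
  have hD'r : closure (interior D') = D' := regular_image_add hDr (-d)
  have heq : C' = D' := Set.Subset.antisymm
    (subset_of_restrict_eq hC'r hD'c.isClosed hrestr)
    (subset_of_restrict_eq hD'r hC'c.isClosed hrestr.symm)
  refine ⟨d - c, ?_⟩
  ext x
  rw [mem_image_add]
  have h1 : x ∈ D ↔ x - d ∈ D' := by
    rw [hD', mem_image_add]
    simp
  have h2 : x - (d - c) ∈ C ↔ x - d ∈ C' := by
    rw [hC', mem_image_add]
    have : x - d - -c = x - (d - c) := by abel
    rw [this]
  rw [h1, h2, heq]

end Pool.Agent.Lib.MP_48d5b6_gt
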